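import Pool.Agent.Lib.MP_53b341_co.NearMatch

/-! # The sign function and the cut inequality -/

namespace Pool.Agent.Lib.MP_53b341_co

open Finset

open Classical in
/-- the orbit of a vertex, as a finite set -/
noncomputable def orb {V : Type*} [Fintype V] (π : Equiv.Perm V) (w : V) : Finset V :=
  univ.filter fun u => π.SameCycle w u

theorem mem_orb {V : Type*} [Fintype V] (π : Equiv.Perm V) (w u : V) :
    u ∈ orb π w ↔ π.SameCycle w u := by
  classical simp [orb]

variable {V : Type*} [Fintype V] [DecidableEq V]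

omit [Fintype V] in
theorem sum_le_cut (s : V → ℤ) (h : V → V) (A X : Finset V) (hs : ∀ v, s v = 1 ∨ s v = -1)
    (h1 : ∀ v ∈ A, h v ∈ A) (h2 : ∀ v ∈ A, h (h v) = v) (h3 : ∀ v ∈ A, s (h v) = - s v) :
    ∑ v ∈ A.filter (· ∈ X), s v ≤ ((A.filter fun v => v ∈ X ∧ h v ∉ X).card : ℤ) := by
  classical
  have h0 : ∑ v ∈ A.filter (fun v => v ∈ X ∧ h v ∈ X), s v = 0 := by
    apply Finset.sum_involution (fun v _ => h v)
    · intro v hv
      rw [mem_filter] at hv
      rw [h3 v hv.1]; ring
    · intro v hv hne heq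
      rw [mem_filter] at hv
      have := h3 v hv.1
      rw [heq] at this
      omega
    · intro v hv
      rw [mem_filter] at hv ⊢
      refine ⟨h1 v hv.1, hv.2.2, ?_⟩
      rw [h2 v hv.1]; exact hv.2.1
    · intro v hv
      rw [mem_filter] at hv
      exact h2 v hv.1
  have h4 : A.filter (· ∈ X) = A.filter (fun v => v ∈ X ∧ h v ∈ X) ∪
      A.filter (fun v => v ∈ X ∧ h v ∉ X) := by
    ext v; simp only [mem_filter, mem_union]; tauto
  have h5 : Disjoint (A.filter (fun v => v ∈ X ∧ h v ∈ X)) (A.filter (fun v => v ∈ X ∧ h v ∉ X)) := by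
    rw [disjoint_left]; intro v hv hv'
    rw [mem_filter] at hv hv'
    exact hv'.2.2 hv.2.2
  rw [h4, sum_union h5, h0, zero_add]
  calc ∑ v ∈ A.filter (fun v => v ∈ X ∧ h v ∉ X), s v
      ≤ ∑ v ∈ A.filter (fun v => v ∈ X ∧ h v ∉ X), (1 : ℤ) :=
        sum_le_sum fun v _ => by rcases hs v with h | h <;> simp [h]
    _ = _ := by simp

/-- the number of edges `v, π v` leaving `X` equals the number of those entering `X` -/
theorem out_eq_in (π : Equiv.Perm V) (X : Finset V) :
    (X.filter fun v => π⁻¹ v ∉ X).card = (X.filter fun v => π v ∉ X).card := by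
  have h1 : (univ.filter fun v => π v ∈ X).card = X.card := by
    apply card_bij (fun v _ => π v)
    · intro v hv; simpa using hv
    · intro v _ w _ h; exact π.injective h
    · intro w hw; exact ⟨π⁻¹ w, by simp [hw], by simp⟩
  have h2 : (univ.filter fun v => π v ∈ X).card
      = (X.filter fun v => π v ∈ X).card + (univ.filter fun v => v ∉ X ∧ π v ∈ X).card := by
    rw [← card_union_of_disjoint]
    · congr 1; ext v; simp only [mem_filter, mem_union, mem_univ, true_and]; tauto
    · rw [disjoint_left]; intro v hv hv'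
      simp only [mem_filter, mem_univ, true_and] at hv hv'
      exact hv'.1 hv.1
  have h3 : X.card = (X.filter fun v => π v ∈ X).card + (X.filter fun v => π v ∉ X).card :=
    (card_filter_add_card_filter_not _).symm
  have h4 : (X.filter fun v => π⁻¹ v ∉ X).card = (univ.filter fun v => v ∉ X ∧ π v ∈ X).card := by
    apply card_bij (fun v _ => π⁻¹ v)
    · intro v hv
      simp only [mem_filter, mem_univ, true_and] at hv ⊢
      exact ⟨hv.2, by simpa using hv.1⟩
    · intro v _ w _ h; exact π⁻¹.injective h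
    · intro w hw
      simp only [mem_filter, mem_univ, true_and] at hw
      exact ⟨π w, by simp [hw.1, hw.2], by simp⟩
  omega

omit [Fintype V] [DecidableEq V] in
theorem sum_parity (s : V → ℤ) (hs : ∀ v, s v = 1 ∨ s v = -1) (A : Finset V) :
    (2 : ℤ) ∣ (∑ v ∈ A, s v) - A.card := by
  have : (∑ v ∈ A, s v) - A.card = ∑ v ∈ A, (s v - 1) := by
    rw [sum_sub_distrib]; simp
  rw [this]
  apply dvd_sum
  intro v _
  rcases hs v with h | h <;> rw [h] <;> norm_num

/-- the number of odd orbits contained in `X` -/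
noncomputable def nodd {V : Type*} [Fintype V] (π : Equiv.Perm V) (X : Finset V) : ℕ :=
  {D : Finset V | Odd D.card ∧ (∃ w, D = orb π w) ∧ D ⊆ X}.ncard

/-- The sign function: a common proper two-colouring along the perfect matching `μ` and a near
perfect matching of the orbits of `π`, whose unmatched vertices are paired up. -/
theorem exists_sign (π μ : Equiv.Perm V) (hμ : ∀ v, μ (μ v) = v) (hμ' : ∀ v, μ v ≠ v) :
    ∃ (W : Finset V) (g : V → V) (s : V → ℤ),
      (∀ v, v ∉ W → g v ∉ W ∧ g v ≠ v ∧ g (g v) = v ∧ (g v = π v ∨ g v = π⁻¹ v)) ∧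
      (∀ w ∈ W, ∀ w' ∈ W, π.SameCycle w w' → w = w') ∧ (∀ w ∈ W, Odd (orb π w).card) ∧
      (∀ v, s v = 1 ∨ s v = -1) ∧ (∀ v, s (μ v) = - s v) ∧ (∀ v, v ∉ W → s (g v) = - s v) ∧
      ∑ v ∈ W, s v = 0 := by
  classical
  obtain ⟨W, g, hg, hW⟩ := near_match π
  have hsame : ∀ v, v ∉ W → π.SameCycle v (g v) := by
    intro v hv
    rcases (hg v hv).2.2.2 with h | h
    · rw [h]; exact ⟨1, by simp⟩
    · rw [h]; exact ⟨-1, by simp⟩
  have hself : ∀ w, w ∈ orb π w := fun w => (mem_orb π w w).2 (Equiv.Perm.SameCycle.refl _ _)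
  have hWodd : ∀ w ∈ W, Odd (orb π w).card := by
    intro w hw
    have he : Even ((orb π w).erase w).card := by
      have hnw : ∀ v ∈ (orb π w).erase w, v ∉ W := by
        intro v hv hvW
        rw [mem_erase, mem_orb] at hv
        exact hv.1 (hW w hw v hvW hv.2).symm
      apply even_card_of_involution _ g
      · intro v hv
        have h1 := hnw v hv
        rw [mem_erase, mem_orb] at hv ⊢
        refine ⟨?_, hv.2.trans (hsame v h1)⟩
        intro h
        have := (hg v h1).1
        rw [h] at this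
        exact this hw
      · intro v hv; exact (hg v (hnw v hv)).2.1
      · intro v hv; exact (hg v (hnw v hv)).2.2.1
    rw [card_erase_of_mem (hself w)] at he
    have h0 : 1 ≤ (orb π w).card := card_pos.2 ⟨w, hself w⟩
    obtain ⟨a, ha⟩ := he
    exact ⟨a, by omega⟩
  have hVe : Even (univ : Finset V).card :=
    even_card_of_involution _ μ (fun _ _ => mem_univ _) (fun v _ => hμ' v) (fun v _ => hμ v)
  have hWce : Even (univ.filter fun v => v ∉ W).card :=
    even_card_of_involution _ g (fun v hv => by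
      simp only [mem_filter, mem_univ, true_and] at hv ⊢; exact (hg v hv).1)
      (fun v hv => by simp only [mem_filter, mem_univ, true_and] at hv; exact (hg v hv).2.1)
      (fun v hv => by simp only [mem_filter, mem_univ, true_and] at hv; exact (hg v hv).2.2.1)
  have hWe : Even W.card := by
    have h1 : W.card + (univ.filter fun v => v ∉ W).card = (univ : Finset V).card := by
      have := card_filter_add_card_filter_not (s := (univ : Finset V)) (fun v => v ∈ W)
      rw [← this]; congr 2; ext v; simp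
    rw [← h1] at hVe
    rcases Nat.even_or_odd W.card with h | h
    · exact h
    · have := h.add_even hWce
      exact absurd hVe (Nat.not_even_iff_odd.2 this)
  obtain ⟨n, hn⟩ := hWe
  obtain ⟨f, hf⟩ := exists_pairing n W (by omega)
  let ν0 : V → V := fun v => if v ∈ W then f v else g v
  have hν0 : Function.Involutive ν0 := by
    intro v
    by_cases hv : v ∈ W
    · simp only [ν0, hv, if_true, (hf v hv).1, (hf v hv).2.2]
    · simp only [ν0, hv, if_false, (hg v hv).1, (hg v hv).2.2.1]
  let ν : Equiv.Perm V := hν0.toPerm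
  have hνv : ∀ v, ν v = if v ∈ W then f v else g v := fun v => rfl
  obtain ⟨s, hs, hsμ, hsν⟩ := two_colour μ ν hμ (fun v => hν0 v) hμ' (fun v => by
    rw [hνv]
    split_ifs with hv
    · exact (hf v hv).2.1
    · exact (hg v hv).2.1)
  refine ⟨W, g, s, hg, hW, hWodd, hs, hsμ, ?_, ?_⟩
  · intro v hv
    have := hsν v
    rw [hνv, if_neg hv] at this
    exact this
  · apply Finset.sum_involution (fun v _ => f v)
    · intro v hv
      have := hsν v
      rw [hνv, if_pos hv] at this
      rw [this]; ring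
    · intro v hv _ ; exact (hf v hv).2.1
    · intro v hv; exact (hf v hv).1
    · intro v hv; exact (hf v hv).2.2

/-- unmatched vertices in `X` are counted by odd orbits in `X` and edges leaving `X` -/
theorem card_unmatched (π : Equiv.Perm V) (W : Finset V)
    (hW : ∀ w ∈ W, ∀ w' ∈ W, π.SameCycle w w' → w = w') (hWodd : ∀ w ∈ W, Odd (orb π w).card)
    (X : Finset V) : (X.filter fun v => v ∈ W).card
      ≤ nodd π X + (X.filter fun v => π v ∉ X).card := by
  classical
  have hself : ∀ w, w ∈ orb π w := fun w => (mem_orb π w w).2 (Equiv.Perm.SameCycle.refl _ _)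
  have h1 : (X.filter fun v => v ∈ W).card
      = ((X.filter fun v => v ∈ W).filter fun w => orb π w ⊆ X).card
        + ((X.filter fun v => v ∈ W).filter fun w => ¬ orb π w ⊆ X).card :=
    (card_filter_add_card_filter_not _).symm
  have h2 : ((X.filter fun v => v ∈ W).filter fun w => orb π w ⊆ X).card ≤ nodd π X := by
    rw [← Set.ncard_coe_finset]
    apply Set.ncard_le_ncard_of_injOn (fun w => orb π w)
    · intro w hw
      rw [mem_coe, mem_filter, mem_filter] at hw
      exact ⟨hWodd w hw.1.2, ⟨w, rfl⟩, hw.2⟩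
    · intro w hw w' hw' h
      rw [mem_coe, mem_filter, mem_filter] at hw hw'
      apply hW w hw.1.2 w' hw'.1.2
      rw [← mem_orb]
      rw [show orb π w = orb π w' from h]
      exact hself w'
  have h3 : ((X.filter fun v => v ∈ W).filter fun w => ¬ orb π w ⊆ X).card
      ≤ (X.filter fun v => π v ∉ X).card := by
    have hex : ∀ w ∈ (X.filter fun v => v ∈ W).filter fun w => ¬ orb π w ⊆ X,
        ∃ u, π.SameCycle w u ∧ u ∈ X ∧ π u ∉ X := by
      intro w hw
      rw [mem_filter, mem_filter] at hw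
      by_contra hcon
      push Not at hcon
      apply hw.2
      intro u hu
      rw [mem_orb] at hu
      obtain ⟨i, -, hi⟩ := hu.exists_pow_eq'
      rw [← hi]
      clear hi
      induction i with
      | zero => simpa using hw.1.1
      | succ i ih =>
        rw [pow_succ', Equiv.Perm.mul_apply]
        exact hcon _ ⟨i, by simp⟩ ih
    choose! F hF using hex
    apply card_le_card_of_injOn F
    · intro w hw
      have := hF w hw
      rw [mem_coe, mem_filter]
      exact this.2
    · intro w hw w' hw' h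
      have h1 := (hF w hw).1
      have h2 := (hF w' hw').1
      have h3 : F w = F w' := h
      rw [h3] at h1
      rw [mem_coe, mem_filter, mem_filter] at hw hw'
      exact hW w hw.1.2 w' hw'.1.2 (h1.trans h2.symm)
  omega

/-- the edges cut by the near perfect matching `g` -/
theorem matched_cut (π : Equiv.Perm V) (W : Finset V) (g : V → V) (s : V → ℤ)
    (hg : ∀ v, v ∉ W → g v ∉ W ∧ g v ≠ v ∧ g (g v) = v ∧ (g v = π v ∨ g v = π⁻¹ v))
    (hs : ∀ v, s v = 1 ∨ s v = -1) (hsg : ∀ v, v ∉ W → s (g v) = - s v) (X : Finset V) :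
    ∃ n : ℕ, n ≤ 2 * (X.filter fun v => π v ∉ X).card ∧
      (2 : ℤ) ∣ (n : ℤ) - (X.filter fun v => v ∉ W).card ∧
      ∑ v ∈ X, s v ≤ n + ∑ v ∈ X.filter (fun v => v ∈ W), s v := by
  classical
  let A : Finset V := univ.filter fun v => v ∉ W
  refine ⟨(A.filter fun v => v ∈ X ∧ g v ∉ X).card, ?_, ?_, ?_⟩
  · have h1 : (A.filter fun v => v ∈ X ∧ g v ∉ X)
        ⊆ (X.filter fun v => π v ∉ X) ∪ (X.filter fun v => π⁻¹ v ∉ X) := by
      intro v hv
      simp only [A, mem_filter, mem_univ, true_and, mem_union] at hv ⊢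
      rcases (hg v hv.1).2.2.2 with h | h
      · left; exact ⟨hv.2.1, by rw [← h]; exact hv.2.2⟩
      · right; exact ⟨hv.2.1, by rw [← h]; exact hv.2.2⟩
    refine (card_le_card h1).trans ((card_union_le _ _).trans ?_)
    rw [out_eq_in]; omega
  · have he : Even (A.filter fun v => v ∈ X ∧ g v ∈ X).card := by
      apply even_card_of_involution _ g
      · intro v hv
        simp only [A, mem_filter, mem_univ, true_and] at hv ⊢
        exact ⟨(hg v hv.1).1, hv.2.2, by rw [(hg v hv.1).2.2.1]; exact hv.2.1⟩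
      · intro v hv
        simp only [A, mem_filter, mem_univ, true_and] at hv
        exact (hg v hv.1).2.1
      · intro v hv
        simp only [A, mem_filter, mem_univ, true_and] at hv
        exact (hg v hv.1).2.2.1
    have hsum : (X.filter fun v => v ∉ W).card = (A.filter fun v => v ∈ X ∧ g v ∈ X).card
        + (A.filter fun v => v ∈ X ∧ g v ∉ X).card := by
      rw [← card_union_of_disjoint]
      · congr 1; ext v
        simp only [A, mem_filter, mem_univ, true_and, mem_union]; tauto
      · rw [disjoint_left]; intro v hv hv'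
        rw [mem_filter] at hv hv'
        exact hv'.2.2 hv.2.2
    rw [hsum]
    obtain ⟨a, ha⟩ := he
    refine ⟨-a, ?_⟩
    rw [ha]; push_cast; ring
  · have h1 := sum_le_cut s g A X hs (fun v hv => by
      simp only [A, mem_filter, mem_univ, true_and] at hv ⊢; exact (hg v hv).1)
      (fun v hv => by
        simp only [A, mem_filter, mem_univ, true_and] at hv; exact (hg v hv).2.2.1)
      (fun v hv => by
        simp only [A, mem_filter, mem_univ, true_and] at hv; exact hsg v hv)
    have h2 : ∑ v ∈ X, s v = ∑ v ∈ A.filter (· ∈ X), s v + ∑ v ∈ X.filter (fun v => v ∈ W), s v := by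
      rw [← sum_filter_add_sum_filter_not X (fun v => v ∈ W), add_comm]
      congr 1
      apply sum_congr _ fun _ _ => rfl
      ext v; simp only [A, mem_filter, mem_univ, true_and]; tauto
    rw [h2]; linarith

theorem compl_out (π : Equiv.Perm V) (X : Finset V) :
    (Xᶜ.filter fun v => π v ∉ Xᶜ).card = (X.filter fun v => π v ∉ X).card := by
  rw [← out_eq_in π Xᶜ]
  apply card_bij (fun v _ => π⁻¹ v)
  · intro v hv
    simp only [mem_filter, mem_compl, not_not] at hv ⊢
    exact ⟨hv.2, by simpa using hv.1⟩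
  · intro v _ w _ h; exact π⁻¹.injective h
  · intro w hw
    simp only [mem_filter] at hw
    exact ⟨π w, by simp [hw.1, hw.2], by simp⟩

/-- bounds for the sum `b` of the signs of the unmatched vertices in `X` -/
theorem unmatched_bounds (π : Equiv.Perm V) (W : Finset V) (s : V → ℤ)
    (hW : ∀ w ∈ W, ∀ w' ∈ W, π.SameCycle w w' → w = w') (hWodd : ∀ w ∈ W, Odd (orb π w).card)
    (hs : ∀ v, s v = 1 ∨ s v = -1) (hW0 : ∑ v ∈ W, s v = 0) (X : Finset V) :
    2 * (∑ v ∈ X.filter (fun v => v ∈ W), s v) ≤ nodd π univ ∧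
    (∑ v ∈ X.filter (fun v => v ∈ W), s v) ≤ nodd π X + (X.filter fun v => π v ∉ X).card ∧
    (∑ v ∈ X.filter (fun v => v ∈ W), s v) ≤ nodd π Xᶜ + (X.filter fun v => π v ∉ X).card := by
  classical
  have hWX := card_unmatched π W hW hWodd
  have hs1 : ∀ v, s v ≤ 1 := fun v => by rcases hs v with h | h <;> rw [h]; norm_num
  have hs2 : ∀ v, -1 ≤ s v := fun v => by rcases hs v with h | h <;> rw [h]; norm_num
  refine ⟨?_, ?_, ?_⟩
  · have h1 : 2 * (∑ v ∈ X.filter (fun v => v ∈ W), s v)
        ≤ ∑ v ∈ X.filter (fun v => v ∈ W), (s v + 1) := by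
      rw [mul_sum]
      exact sum_le_sum fun v _ => by linarith [hs1 v]
    have h2 : ∑ v ∈ X.filter (fun v => v ∈ W), (s v + 1) ≤ ∑ v ∈ W, (s v + 1) := by
      apply sum_le_sum_of_subset_of_nonneg
      · intro v hv; exact (mem_filter.1 hv).2
      · intro v _ _; linarith [hs2 v]
    have h4 : ∑ v ∈ W, (s v + 1) = W.card := by rw [sum_add_distrib, hW0]; simp
    have h5 : (W.card : ℤ) ≤ nodd π univ := by
      have := hWX univ
      have h6 : W.card ≤ nodd π univ := by simpa using this
      exact_mod_cast h6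
    linarith
  · have h1 : ∑ v ∈ X.filter (fun v => v ∈ W), s v ≤ ∑ v ∈ X.filter (fun v => v ∈ W), (1 : ℤ) :=
      sum_le_sum fun v _ => hs1 v
    have h2 : ((X.filter fun v => v ∈ W).card : ℤ) ≤ nodd π X + (X.filter fun v => π v ∉ X).card := by
      exact_mod_cast hWX X
    simp only [sum_const, nsmul_eq_mul, mul_one] at h1
    linarith
  · have h1 : ∑ v ∈ Xᶜ.filter (fun v => v ∈ W), (- s v)
        ≤ ∑ v ∈ Xᶜ.filter (fun v => v ∈ W), (1 : ℤ) :=
      sum_le_sum fun v _ => by linarith [hs2 v]
    have h2 : ((Xᶜ.filter fun v => v ∈ W).card : ℤ) ≤ nodd π Xᶜ + (X.filter fun v => π v ∉ X).card := by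
      have := hWX Xᶜ
      rw [compl_out] at this
      exact_mod_cast this
    have h4 : ∑ v ∈ X.filter (fun v => v ∈ W), s v + ∑ v ∈ Xᶜ.filter (fun v => v ∈ W), s v
        = ∑ v ∈ W, s v := by
      rw [← sum_union]
      · apply sum_congr _ fun _ _ => rfl
        ext v; simp only [mem_union, mem_filter, mem_compl]; tauto
      · rw [disjoint_left]; intro v hv hv'
        rw [mem_filter] at hv hv'
        exact (mem_compl.1 hv'.1) hv.1
    simp only [sum_const, nsmul_eq_mul, mul_one] at h1
    rw [sum_neg_distrib] at h1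
    rw [hW0] at h4
    linarith

/-- The cut inequality for the sign function. -/
theorem exists_sigma (π μ : Equiv.Perm V) (hμ : ∀ v, μ (μ v) = v) (hμ' : ∀ v, μ v ≠ v)
    (p q : ℕ)
    (hcut : ∀ (X : Finset V) (y : ℕ),
      y ≡ (X.filter fun v => μ v ∉ X).card + 2 * (X.filter fun v => π v ∉ X).card [MOD 2] →
      2 * y ≤ nodd π univ →
      2 * y ≤ 2 * nodd π X + 2 * (X.filter fun v => π v ∉ X).card →
      2 * y ≤ 2 * nodd π Xᶜ + 2 * (X.filter fun v => π v ∉ X).card →
      p * (2 * (X.filter fun v => π v ∉ X).card) < q * y →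
      (p + 2 * q) * y ≤ p * ((X.filter fun v => μ v ∉ X).card + 2 * (X.filter fun v => π v ∉ X).card)) :
    ∃ s : V → ℤ, (∀ v, s v = 1 ∨ s v = -1) ∧ (∀ v, s (μ v) = - s v) ∧ ∀ X : Finset V,
      ((p : ℤ) + 2 * q) * ∑ v ∈ X, s v ≤ p * (X.filter fun v => μ v ∉ X).card +
        2 * (p + q) * (2 * (X.filter fun v => π v ∉ X).card) := by
  classical
  obtain ⟨W, g, s, hg, hW, hWodd, hs, hsμ, hsg, hW0⟩ := exists_sign π μ hμ hμ'
  refine ⟨s, hs, hsμ, ?_⟩
  intro X
  by_contra hviol
  push Not at hviol
  obtain ⟨n', hn1, hn2, hn3⟩ := matched_cut π W g s hg hs hsg X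
  obtain ⟨hbk, hbX, hbXc⟩ := unmatched_bounds π W s hW hWodd hs hW0 X
  have e1 := sum_parity s hs (X.filter fun v => v ∈ W)
  have hSm : ∑ v ∈ X, s v ≤ (X.filter fun v => μ v ∉ X).card := by
    have := sum_le_cut s μ univ X hs (fun _ _ => mem_univ _) (fun v _ => hμ v) (fun v _ => hsμ v)
    have e1 : univ.filter (· ∈ X) = X := by ext; simp
    have e2 : (univ.filter fun v => v ∈ X ∧ μ v ∉ X) = X.filter fun v => μ v ∉ X := by
      ext; simp
    rw [e1, e2] at this
    exact this
  have e2 : Even (X.filter fun v => μ v ∈ X).card := by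
    apply even_card_of_involution _ μ
    · intro v hv
      rw [mem_filter] at hv ⊢
      exact ⟨hv.2, by rw [hμ]; exact hv.1⟩
    · intro v _; exact hμ' v
    · intro v _; exact hμ v
  have e3 : (X.filter fun v => μ v ∈ X).card + (X.filter fun v => μ v ∉ X).card = X.card :=
    card_filter_add_card_filter_not _
  have e4 : (X.filter fun v => v ∈ W).card + (X.filter fun v => v ∉ W).card = X.card :=
    card_filter_add_card_filter_not _
  have hcut' := hcut X
  clear hcut
  generalize (∑ v ∈ X.filter (fun v => v ∈ W), s v) = b at *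
  generalize (∑ v ∈ X, s v) = S at *
  generalize (X.filter fun v => μ v ∉ X).card = m at *
  generalize (X.filter fun v => π v ∉ X).card = c at *
  generalize (X.filter fun v => v ∈ W).card = w1 at *
  generalize (X.filter fun v => v ∉ W).card = w2 at *
  generalize (X.filter fun v => μ v ∈ X).card = m1 at *
  have hp' : (0 : ℤ) ≤ p := Int.natCast_nonneg _
  have hq' : (0 : ℤ) ≤ q := Int.natCast_nonneg _
  have hc0 : (0 : ℤ) ≤ c := Int.natCast_nonneg _
  have hm0 : (0 : ℤ) ≤ m := Int.natCast_nonneg _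
  have h4 : (n' : ℤ) ≤ 2 * c := by exact_mod_cast hn1
  have hy1 : ((p : ℤ) + 2 * q) * (b + n' - 2 * c) > p * (m + 2 * c) := by
    have : ((p : ℤ) + 2 * q) * S ≤ ((p : ℤ) + 2 * q) * (n' + b) := by
      apply mul_le_mul_of_nonneg_left hn3; linarith
    nlinarith
  have hy0 : 0 < b + n' - 2 * c := by
    by_contra h
    push Not at h
    have h1 : ((p : ℤ) + 2 * q) * (b + n' - 2 * c) ≤ 0 := mul_nonpos_of_nonneg_of_nonpos (by linarith) h
    have h2 : (0 : ℤ) ≤ p * (m + 2 * c) := mul_nonneg hp' (by linarith)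
    linarith
  have hy2 : (p : ℤ) * (2 * c) < q * (b + n' - 2 * c) := by
    have h1 : (q : ℤ) * S ≤ q * (n' + b) := mul_le_mul_of_nonneg_left hn3 hq'
    have h2 : (p : ℤ) * S ≤ p * m := mul_le_mul_of_nonneg_left hSm hp'
    nlinarith
  obtain ⟨y, hy⟩ := Int.eq_ofNat_of_zero_le hy0.le
  have hpar : y ≡ m + 2 * c [MOD 2] := by
    obtain ⟨a1, ha1⟩ := e1
    obtain ⟨a2, ha2⟩ := e2
    obtain ⟨a3, ha3⟩ := hn2
    rw [Nat.ModEq]
    omega
  have g1 : 2 * y ≤ nodd π univ := by
    have : 2 * (y : ℤ) ≤ nodd π univ := by rw [← hy]; linarith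
    exact_mod_cast this
  have g2 : 2 * y ≤ 2 * nodd π X + 2 * c := by
    have : 2 * (y : ℤ) ≤ 2 * nodd π X + 2 * c := by rw [← hy]; linarith
    exact_mod_cast this
  have g3 : 2 * y ≤ 2 * nodd π Xᶜ + 2 * c := by
    have : 2 * (y : ℤ) ≤ 2 * nodd π Xᶜ + 2 * c := by rw [← hy]; linarith
    exact_mod_cast this
  have g4 : p * (2 * c) < q * y := by
    rw [hy] at hy2
    exact_mod_cast hy2
  have := hcut' y hpar g1 g2 g3 g4
  have h5 : ((p : ℤ) + 2 * q) * y ≤ p * (m + 2 * c) := by exact_mod_cast this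
  rw [← hy] at h5
  linarith

end Pool.Agent.Lib.MP_53b341_co
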