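import Mathlib

/-! # Flow-pairs of finite multigraphs: definitions

A finite multigraph (loops and parallel edges allowed), with an orientation, is given by finite
types `V` (vertices) and `E` (edges) and two maps `src tgt : E → V`. -/

namespace Pool.Agent.Lib.MP_53b341_co

variable {V E : Type*} [Fintype E]

open Classical in
/-- An integer flow: at every vertex the sum of the values on incoming edges equals the sum of the
values on outgoing edges. -/
def IsFlow (src tgt : E → V) (φ : E → ℤ) : Prop :=
  ∀ v, ∑ e with tgt e = v, φ e = ∑ e with src e = v, φ e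

/-- `(φ₂, φ)` is a `t`-flow-pair, `t = p / q`: `φ₂` is a `2`-flow, `φ` is a `(p+q+1)`-flow (with
respect to the same orientation), and `|φ e| ≥ q` whenever `φ₂ e = 0`. -/
def IsFlowPair (src tgt : E → V) (p q : ℕ) (φ₂ φ : E → ℤ) : Prop :=
  IsFlow src tgt φ₂ ∧ IsFlow src tgt φ ∧ (∀ e, |φ₂ e| ≤ 1) ∧ (∀ e, |φ e| ≤ p + q) ∧
    ∀ e, φ₂ e = 0 → q ≤ |φ e|

open Classical in
/-- Every vertex has degree three (a loop counts twice). -/
def IsCubic (src tgt : E → V) : Prop :=
  ∀ v, (Finset.univ.filter fun e => src e = v).card + (Finset.univ.filter fun e => tgt e = v).card = 3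

open Classical in
/-- The set `C` of edges is a 2-factor: every vertex has degree two in `(V, C)` (a loop counts
twice). -/
def IsTwoFactor (src tgt : E → V) (C : Finset E) : Prop :=
  ∀ v, (C.filter fun e => src e = v).card + (C.filter fun e => tgt e = v).card = 2

/-- `D` is the vertex set of a connected component of `(V, C)` with an odd number of vertices;
when `C` is a 2-factor these are the vertex sets of the odd cycles of `C`. -/
def IsOddCycle (src tgt : E → V) (C : Finset E) (D : Set V) : Prop :=
  Odd D.ncard ∧ ∃ v, D = {u | Relation.EqvGen (fun x y => ∃ e ∈ C, src e = x ∧ tgt e = y) v u}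

/-- The number of odd cycles of `C` all of whose vertices lie in `X`. -/
noncomputable def numOdd (src tgt : E → V) (C : Finset E) (X : Set V) : ℕ :=
  {D : Set V | IsOddCycle src tgt C D ∧ D ⊆ X}.ncard

open Classical in
/-- The number of edges in `S` with exactly one end in `X`. -/
noncomputable def cut (src tgt : E → V) (S : Finset E) (X : Set V) : ℕ :=
  (S.filter fun e => ¬(src e ∈ X ↔ tgt e ∈ X)).card

end Pool.Agent.Lib.MP_53b341_co
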