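import Pool.Agent.Lib.MP_53b341_co.Graph

/-! # From the sign function to the flow -/

set_option linter.unusedSectionVars false

namespace Pool.Agent.Lib.MP_53b341_co

open Finset

variable {V E : Type*} [Fintype V] [DecidableEq V] [Fintype E] [DecidableEq E]

theorem flow_of_sigma (src tgt : E → V) (C : Finset E)
    (hC : ∀ v, (C.filter fun e => src e = v).card + (C.filter fun e => tgt e = v).card = 2)
    (hM : ∀ v, (Cᶜ.filter fun e => src e = v).card + (Cᶜ.filter fun e => tgt e = v).card = 1)
    (s : V → ℤ) (hs : ∀ v, s v = 1 ∨ s v = -1) (hs0 : ∑ v, s v = 0)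
    (hsM : ∀ e, e ∉ C → s (tgt e) = - s (src e)) (p q : ℕ)
    (hcut : ∀ X : Finset V, ((p : ℤ) + 2 * q) * ∑ v ∈ X, s v ≤
      p * (Cᶜ.filter fun e => ¬(src e ∈ X ↔ tgt e ∈ X)).card +
        2 * (p + q) * (C.filter fun e => ¬(src e ∈ X ↔ tgt e ∈ X)).card) :
    ∃ φ : E → ℤ, (∀ v, ∑ e with tgt e = v, φ e = ∑ e with src e = v, φ e) ∧
      (∀ e, |φ e| ≤ p + q) ∧ ∀ e, e ∉ C → q ≤ |φ e| := by
  classical
  let mult : E → ℕ := fun e => if e ∈ C then 2 * (p + q) else p
  let o : V → ℕ := fun v => if s v = 1 then 2 * p + q else 3 * (p + q)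
  have ho : ∀ v, 2 * (o v : ℤ) = (5 * p + 4 * q) - (p + 2 * q) * s v := by
    intro v
    rcases hs v with h | h
    · simp only [o, h, if_true]; push_cast; ring
    · simp only [o, h]; norm_num; ring
  have hoX : ∀ X : Finset V, 2 * ((∑ v ∈ X, o v : ℕ) : ℤ)
      = X.card * (5 * p + 4 * q) - (p + 2 * q) * ∑ v ∈ X, s v := by
    intro X
    rw [Nat.cast_sum, mul_sum, sum_congr rfl fun v _ => ho v, sum_sub_distrib, ← mul_sum]
    simp
  have hin : ∀ X : Finset V,
      2 * ((∑ e with (src e ∈ X ∧ tgt e ∈ X), mult e : ℕ) : ℤ) = X.card * (5 * p + 4 * q)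
        - (p * (Cᶜ.filter fun e => ¬(src e ∈ X ↔ tgt e ∈ X)).card +
        2 * (p + q) * (C.filter fun e => ¬(src e ∈ X ↔ tgt e ∈ X)).card) := by
    intro X
    have d1 := degree_sum src tgt C X
    have d2 := degree_sum src tgt Cᶜ X
    simp only [hC, hM, sum_const, smul_eq_mul] at d1 d2
    have e1 : ∑ e with (src e ∈ X ∧ tgt e ∈ X), mult e
        = (C.filter fun e => src e ∈ X ∧ tgt e ∈ X).card * (2 * (p + q))
          + (Cᶜ.filter fun e => src e ∈ X ∧ tgt e ∈ X).card * p := by
      rw [← sum_filter_add_sum_filter_not (univ.filter fun e => src e ∈ X ∧ tgt e ∈ X) (fun e => e ∈ C)]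
      have f1 : (univ.filter fun e => src e ∈ X ∧ tgt e ∈ X).filter (fun e => e ∈ C)
          = C.filter fun e => src e ∈ X ∧ tgt e ∈ X := by
        ext e; simp only [mem_filter, mem_univ, true_and]; tauto
      have f2 : (univ.filter fun e => src e ∈ X ∧ tgt e ∈ X).filter (fun e => e ∉ C)
          = Cᶜ.filter fun e => src e ∈ X ∧ tgt e ∈ X := by
        ext e; simp only [mem_filter, mem_univ, true_and, mem_compl]; tauto
      rw [f1, f2]
      congr 1
      · rw [sum_congr rfl (g := fun _ => 2 * (p + q)) (fun e he => by
          rw [mem_filter] at he; simp only [mult, he.1, if_true])]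
        simp
      · rw [sum_congr rfl (g := fun _ => p) (fun e he => by
          rw [mem_filter, mem_compl] at he; simp only [mult, he.1, if_false])]
        simp
    rw [e1]
    push_cast
    have d1' : ((X.card : ℤ) * 2) = 2 * (C.filter fun e => src e ∈ X ∧ tgt e ∈ X).card
        + (C.filter fun e => ¬(src e ∈ X ↔ tgt e ∈ X)).card := by exact_mod_cast d1
    have d2' : ((X.card : ℤ) * 1) = 2 * (Cᶜ.filter fun e => src e ∈ X ∧ tgt e ∈ X).card
        + (Cᶜ.filter fun e => ¬(src e ∈ X ↔ tgt e ∈ X)).card := by exact_mod_cast d2
    linear_combination (-(2 * ((p : ℤ) + q))) * d1' - (p : ℤ) * d2'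
  obtain ⟨t, ht, ht1⟩ := orient (fun x : (Σ e : E, Fin (mult e)) => src x.1) (fun x => tgt x.1) o (by
      rw [Fintype.card_sigma]
      simp only [Fintype.card_fin]
      have h1 := hoX univ
      have h2 := hin univ
      rw [hs0] at h1
      simp only [mem_univ, and_self, iff_self, not_true_eq_false, filter_true, filter_false,
        card_empty] at h2
      have : 2 * ((∑ v, o v : ℕ) : ℤ) = 2 * ((∑ e, mult e : ℕ) : ℤ) := by
        rw [h1, h2]; push_cast; ring
      exact_mod_cast (mul_left_cancel₀ (by norm_num : (2 : ℤ) ≠ 0) this)) (by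
      intro X
      have h0 : (univ.filter fun x : (Σ e : E, Fin (mult e)) => src x.1 ∈ X ∧ tgt x.1 ∈ X).card
          = ∑ e with (src e ∈ X ∧ tgt e ∈ X), mult e := by
        have : (univ.filter fun x : (Σ e : E, Fin (mult e)) => src x.1 ∈ X ∧ tgt x.1 ∈ X)
            = (univ.filter fun e => src e ∈ X ∧ tgt e ∈ X).sigma fun _ => univ := by
          ext x; simp
        rw [this, card_sigma]; simp
      rw [h0]
      have h1 := hoX X
      have h2 := hin X
      have h3 := hcut X
      have : ((∑ e with (src e ∈ X ∧ tgt e ∈ X), mult e : ℕ) : ℤ) ≤ ((∑ v ∈ X, o v : ℕ) : ℤ) := by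
        linarith
      exact_mod_cast this)
  -- loops
  have hloop : ∀ e, e ∉ C → src e ≠ tgt e := by
    intro e he h
    have h1 : 0 < (Cᶜ.filter fun e' => src e' = src e).card := card_pos.2 ⟨e, by simp [he]⟩
    have h2 : 0 < (Cᶜ.filter fun e' => tgt e' = src e).card := card_pos.2 ⟨e, by simp [he, h]⟩
    have := hM (src e)
    omega
  let cnt : E → V → ℕ := fun e v => (univ.filter fun i : Fin (mult e) => t ⟨e, i⟩ = v).card
  let F : E → ℤ := fun e => if src e = tgt e then (p : ℤ) + q else cnt e (src e)
  have hcle : ∀ e v, cnt e v ≤ mult e := by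
    intro e v
    refine (card_le_univ _).trans ?_
    simp
  have hcnt : ∀ e v, (cnt e v : ℤ) = (if src e = v then (1 : ℤ) else 0) * F e
      + (if tgt e = v then (1 : ℤ) else 0) * (mult e - F e) := by
    intro e v
    by_cases hl : src e = tgt e
    · have heC : e ∈ C := by by_contra h; exact hloop e h hl
      have hm : (mult e : ℤ) = 2 * (p + q) := by simp only [mult, heC, if_true]; push_cast; ring
      by_cases hv : src e = v
      · have hv' : tgt e = v := hl ▸ hv
        have : cnt e v = mult e := by
          have : (univ.filter fun i : Fin (mult e) => t ⟨e, i⟩ = v) = univ := by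
            ext i
            simp only [mem_filter, mem_univ, true_and, iff_true]
            rcases ht ⟨e, i⟩ with h | h
            · rw [h]; exact hv
            · rw [h]; exact hv'
          simp only [cnt, this]; simp
        rw [this, if_pos hv, if_pos hv']; ring
      · have hv' : tgt e ≠ v := hl ▸ hv
        have : cnt e v = 0 := by
          simp only [cnt, card_eq_zero]
          ext i
          simp only [mem_filter, mem_univ, true_and, notMem_empty, iff_false]
          rcases ht ⟨e, i⟩ with h | h
          · rw [h]; exact hv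
          · rw [h]; exact hv'
        rw [this, if_neg hv, if_neg hv']; simp
    · have hsum : cnt e (src e) + cnt e (tgt e) = mult e := by
        have h1 : cnt e (src e) + cnt e (tgt e) = (univ : Finset (Fin (mult e))).card := by
          simp only [cnt]
          rw [← card_union_of_disjoint]
          · congr 1; ext i
            simp only [mem_union, mem_filter, mem_univ, true_and, iff_true]
            exact ht ⟨e, i⟩
          · rw [disjoint_left]; intro i hi hi'
            simp only [mem_filter, mem_univ, true_and] at hi hi'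
            exact hl (hi.symm.trans hi')
        rw [h1]; simp
      have hF : F e = cnt e (src e) := by simp only [F, hl, if_false]
      have hsum' : (cnt e (src e) : ℤ) + cnt e (tgt e) = mult e := by exact_mod_cast hsum
      by_cases hv : src e = v
      · have hv' : tgt e ≠ v := fun h => hl (hv.trans h.symm)
        rw [if_pos hv, if_neg hv', hF, hv]; ring
      · by_cases hv' : tgt e = v
        · rw [if_neg hv, if_pos hv', hF, ← hsum', hv']; ring
        · have : cnt e v = 0 := by
            simp only [cnt, card_eq_zero]
            ext i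
            simp only [mem_filter, mem_univ, true_and, notMem_empty, iff_false]
            rcases ht ⟨e, i⟩ with h | h
            · rw [h]; exact hv
            · rw [h]; exact hv'
          rw [this, if_neg hv, if_neg hv']; simp
  have hoc : ∀ v, (o v : ℤ) = ∑ e, (cnt e v : ℤ) := by
    intro v
    rw [← ht1 v]
    have : (univ.filter fun x : (Σ e : E, Fin (mult e)) => t x = v)
        = (univ : Finset E).sigma fun e => univ.filter fun i : Fin (mult e) => t ⟨e, i⟩ = v := by
      ext x; simp
    rw [this, card_sigma]; push_cast; rfl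
  have hF0 : ∀ e, 0 ≤ F e ∧ F e ≤ mult e := by
    intro e
    by_cases hl : src e = tgt e
    · have heC : e ∈ C := by by_contra h; exact hloop e h hl
      have hm : (mult e : ℤ) = 2 * (p + q) := by simp only [mult, heC, if_true]; push_cast; ring
      have : F e = p + q := by simp only [F, hl, if_true]
      rw [this, hm]; constructor <;> linarith [Int.natCast_nonneg p, Int.natCast_nonneg q]
    · have hF : F e = cnt e (src e) := by simp only [F, hl, if_false]
      rw [hF]
      exact ⟨Int.natCast_nonneg _, by exact_mod_cast hcle e _⟩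
  let I : E → ℤ := fun e => if e ∉ C ∧ s (src e) = 1 then 1 else 0
  refine ⟨fun e => F e - (p + q) + (p + 2 * q) * I e, fun v => ?_, fun e => ?_, fun e he => ?_⟩
  · -- conservation
    have hA : ∀ (f : E → V) (ψ : E → ℤ), ∑ e with f e = v, ψ e
        = ∑ e, (if f e = v then (1 : ℤ) else 0) * ψ e := by
      intro f ψ
      rw [sum_filter]
      exact sum_congr rfl fun e _ => by split_ifs <;> simp
    have hcard : ∀ (f : E → V) (S : Finset E), ((S.filter fun e => f e = v).card : ℤ)
        = ∑ e, (if f e = v then (1 : ℤ) else 0) * (if e ∈ S then 1 else 0) := by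
      intro f S
      rw [card_filter]
      push_cast
      rw [← sum_filter_add_sum_filter_not univ (fun e => e ∈ S)]
      have z : ∑ e with e ∉ S, (if f e = v then (1 : ℤ) else 0) * (if e ∈ S then 1 else 0) = 0 :=
        sum_eq_zero fun e he => by rw [mem_filter] at he; simp [he.2]
      rw [z, add_zero]
      have z2 : (univ.filter fun e => e ∈ S) = S := by ext; simp
      rw [z2]
      exact sum_congr rfl fun e he => by simp [he]
    set Co : ℤ := ((C.filter fun e => src e = v).card : ℤ) with hCo
    set Ci : ℤ := ((C.filter fun e => tgt e = v).card : ℤ) with hCi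
    set Mo : ℤ := ((Cᶜ.filter fun e => src e = v).card : ℤ) with hMo
    set Mi : ℤ := ((Cᶜ.filter fun e => tgt e = v).card : ℤ) with hMi
    have h2 : Co + Ci = 2 := by rw [hCo, hCi]; exact_mod_cast hC v
    have h1 : Mo + Mi = 1 := by rw [hMo, hMi]; exact_mod_cast hM v
    have hMo0 : 0 ≤ Mo := Int.natCast_nonneg _
    have hMi0 : 0 ≤ Mi := Int.natCast_nonneg _
    have key : ∑ e, (if src e = v then (1 : ℤ) else 0) * (F e - (p + q) + (p + 2 * q) * I e)
        - ∑ e, (if tgt e = v then (1 : ℤ) else 0) * (F e - (p + q) + (p + 2 * q) * I e)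
        = o v - (2 * (p + q) * Ci + p * Mi) - (p + q) * (Co + Mo - Ci - Mi)
          + (p + 2 * q) * ((if s v = 1 then 1 else 0) * Mo - (if s v = 1 then 0 else 1) * Mi) := by
      rw [hoc, hCo, hCi, hMo, hMi, hcard, hcard, hcard, hcard]
      rw [← sum_sub_distrib]
      simp only [mul_sum, ← sum_sub_distrib, ← sum_add_distrib]
      refine sum_congr rfl fun e _ => ?_
      rw [hcnt]
      by_cases heC : e ∈ C
      · have hm : (mult e : ℤ) = 2 * (p + q) := by simp only [mult, heC, if_true]; push_cast; ring
        have hI : I e = 0 := by simp [I, heC]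
        rw [hm, hI]
        simp only [heC, mem_compl, not_true_eq_false, if_true, if_false]
        ring
      · have hm : (mult e : ℤ) = p := by simp only [mult, heC, if_false]
        rw [hm]
        simp only [heC, mem_compl, not_false_eq_true, if_true, if_false]
        have hne := hloop e heC
        have hse := hsM e heC
        by_cases hv : src e = v
        · have hv' : tgt e ≠ v := fun h => hne (hv.trans h.symm)
          have hI : I e = if s v = 1 then 1 else 0 := by simp only [I, heC, hv, not_false_eq_true, true_and]
          rw [if_pos hv, if_neg hv', hI]; ring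
        · by_cases hv' : tgt e = v
          · have hI : I e = if s v = 1 then 0 else 1 := by
              rw [hv'] at hse
              rcases hs v with h | h
              · have : s (src e) ≠ 1 := by intro h'; rw [h, h'] at hse; norm_num at hse
                simp [I, this, h]
              · have : s (src e) = 1 := by rw [h] at hse; linarith
                simp [I, heC, this, h]
            rw [if_neg hv, if_pos hv', hI]; ring
          · rw [if_neg hv, if_neg hv']; ring
    rw [hA tgt, hA src]
    have hzero : (o v : ℤ) - (2 * (p + q) * Ci + p * Mi) - (p + q) * (Co + Mo - Ci - Mi)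
          + (p + 2 * q) * ((if s v = 1 then 1 else 0) * Mo - (if s v = 1 then 0 else 1) * Mi) = 0 := by
      have hCi' : Ci = 2 - Co := by linarith
      have hMcase : (Mo = 1 ∧ Mi = 0) ∨ (Mo = 0 ∧ Mi = 1) := by omega
      rcases hs v with h | h
      · have ho1 : (o v : ℤ) = 2 * p + q := by simp only [o, h, if_true]; push_cast; ring
        rw [ho1, hCi']
        simp only [h, if_true]
        rcases hMcase with ⟨a, b⟩ | ⟨a, b⟩ <;> rw [a, b] <;> ring
      · have ho1 : (o v : ℤ) = 3 * (p + q) := by simp [o, h]
        rw [ho1, hCi']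
        have : s v ≠ 1 := by rw [h]; norm_num
        simp only [this, if_false]
        rcases hMcase with ⟨a, b⟩ | ⟨a, b⟩ <;> rw [a, b] <;> ring
    linarith [key, hzero]
  · -- upper bound
    obtain ⟨h1, h2⟩ := hF0 e
    by_cases heC : e ∈ C
    · have hm : (mult e : ℤ) = 2 * (p + q) := by simp only [mult, heC, if_true]; push_cast; ring
      have hI : I e = 0 := by simp [I, heC]
      simp only [hI]
      rw [hm] at h2
      rw [abs_le]; constructor <;> linarith
    · have hm : (mult e : ℤ) = p := by simp only [mult, heC, if_false]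
      rw [hm] at h2
      have hp0 : (0 : ℤ) ≤ p := by positivity
      have hq0 : (0 : ℤ) ≤ q := by positivity
      rcases hs (src e) with h | h
      · have hI : I e = 1 := by simp [I, heC, h]
        simp only [hI]
        rw [abs_le]; constructor <;> linarith
      · have hI : I e = 0 := by simp [I, h]
        simp only [hI]
        rw [abs_le]; constructor <;> linarith
  · obtain ⟨h1, h2⟩ := hF0 e
    have hm : (mult e : ℤ) = p := by simp only [mult, he, if_false]
    rw [hm] at h2
    rcases hs (src e) with h | h
    · have hI : I e = 1 := by simp [I, he, h]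
      simp only [hI]
      rw [le_abs]; left; linarith
    · have hI : I e = 0 := by simp [I, h]
      simp only [hI]
      rw [le_abs]; right; linarith

end Pool.Agent.Lib.MP_53b341_co
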