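import Pool.Agent.Lib.MP_53b341_co.Defs
import Pool.Agent.Lib.MP_53b341_co.Core

/-! # From a 2-factor to a permutation and an involution -/

set_option linter.unusedSectionVars false

namespace Pool.Agent.Lib.MP_53b341_co

open Finset

variable {V E : Type*} [Fintype V] [DecidableEq V] [Fintype E] [DecidableEq E]

/-- degree sums over a set of vertices -/
theorem degree_sum (src tgt : E → V) (C : Finset E) (X : Finset V) :
    ∑ v ∈ X, ((C.filter fun e => src e = v).card + (C.filter fun e => tgt e = v).card)
      = 2 * (C.filter fun e => src e ∈ X ∧ tgt e ∈ X).card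
        + (C.filter fun e => ¬(src e ∈ X ↔ tgt e ∈ X)).card := by
  have h : ∀ f : E → V, ∑ v ∈ X, (C.filter fun e => f e = v).card = (C.filter fun e => f e ∈ X).card := by
    intro f
    rw [card_eq_sum_card_fiberwise (f := f) (t := X)]
    · refine sum_congr rfl fun v hv => ?_
      congr 1; ext e
      simp only [mem_filter]
      constructor
      · rintro ⟨h1, h2⟩; exact ⟨⟨h1, by rw [h2]; exact hv⟩, h2⟩
      · rintro ⟨⟨h1, _⟩, h2⟩; exact ⟨h1, h2⟩
    · intro e he
      simp only [coe_filter, Set.mem_ofPred_eq] at he
      exact he.2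
  rw [sum_add_distrib, h, h]
  have e1 : (C.filter fun e => src e ∈ X).card = (C.filter fun e => src e ∈ X ∧ tgt e ∈ X).card
      + (C.filter fun e => src e ∈ X ∧ tgt e ∉ X).card := by
    rw [← card_union_of_disjoint]
    · congr 1; ext e; simp only [mem_filter, mem_union]; tauto
    · rw [disjoint_left]; intro e he he'
      simp only [mem_filter] at he he'; tauto
  have e2 : (C.filter fun e => tgt e ∈ X).card = (C.filter fun e => src e ∈ X ∧ tgt e ∈ X).card
      + (C.filter fun e => src e ∉ X ∧ tgt e ∈ X).card := by
    rw [← card_union_of_disjoint]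
    · congr 1; ext e; simp only [mem_filter, mem_union]; tauto
    · rw [disjoint_left]; intro e he he'
      simp only [mem_filter] at he he'; tauto
  have e3 : (C.filter fun e => ¬(src e ∈ X ↔ tgt e ∈ X)).card
      = (C.filter fun e => src e ∈ X ∧ tgt e ∉ X).card
      + (C.filter fun e => src e ∉ X ∧ tgt e ∈ X).card := by
    rw [← card_union_of_disjoint]
    · congr 1; ext e; simp only [mem_filter, mem_union]; tauto
    · rw [disjoint_left]; intro e he he'
      simp only [mem_filter] at he he'; tauto
  omega

/-- a cyclic orientation of a 2-factor -/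
theorem exists_perm (src tgt : E → V) (C : Finset E)
    (hC : ∀ v, (C.filter fun e => src e = v).card + (C.filter fun e => tgt e = v).card = 2) :
    ∃ (t h : {e // e ∈ C} → V) (π : Equiv.Perm V), Function.Bijective t ∧
      (∀ e, (t e = src e ∧ h e = tgt e) ∨ (t e = tgt e ∧ h e = src e)) ∧ ∀ e, π (t e) = h e := by
  classical
  have hfil : ∀ (P : E → Prop) [DecidablePred P], (univ.filter fun e : {e // e ∈ C} => P e).card
      = (C.filter P).card := by
    intro P _
    apply card_bij (fun (e : {e // e ∈ C}) _ => (e : E))
    · intro e he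
      simp only [mem_filter, mem_univ, true_and] at he ⊢
      exact ⟨e.2, he⟩
    · intro e _ e' _ h; exact Subtype.ext h
    · intro e he
      rw [mem_filter] at he
      exact ⟨⟨e, he.1⟩, by simp [he.2], rfl⟩
  obtain ⟨t, ht, ht1⟩ := orient (fun e : {e // e ∈ C} => src e) (fun e => tgt e) (fun _ => 1) (by
      have := degree_sum src tgt C univ
      simp only [hC, mem_univ, and_self, iff_self, not_true_eq_false, filter_true, filter_false,
        card_empty, add_zero] at this
      simp only [sum_const, card_univ, smul_eq_mul, mul_one, Fintype.card_coe] at this ⊢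
      omega) (by
      intro X
      have := degree_sum src tgt C X
      simp only [hC, sum_const, smul_eq_mul] at this
      rw [hfil (fun e => src e ∈ X ∧ tgt e ∈ X)]
      simp only [sum_const, smul_eq_mul, mul_one]
      omega)
  let h : {e // e ∈ C} → V := fun e => if t e = src e then tgt e else src e
  have hth : ∀ e, (t e = src e ∧ h e = tgt e) ∨ (t e = tgt e ∧ h e = src e) := by
    intro e
    by_cases h1 : t e = src e
    · left; exact ⟨h1, by simp [h, h1]⟩
    · right; exact ⟨(ht e).resolve_left h1, by simp [h, h1]⟩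
  have htbij : Function.Bijective t := by
    rw [Function.bijective_iff_existsUnique]
    intro v
    obtain ⟨e, he⟩ := card_eq_one.1 (ht1 v)
    refine ⟨e, ?_, fun e' he' => ?_⟩
    · have : e ∈ univ.filter fun e => t e = v := by rw [he]; simp
      simpa using this
    · have : e' ∈ univ.filter fun e => t e = v := by simpa using he'
      rw [he] at this; simpa using this
  have hh1 : ∀ v, (univ.filter fun e => h e = v).card = 1 := by
    intro v
    have h1 : (univ.filter fun e => t e = v).card + (univ.filter fun e => h e = v).card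
        = (univ.filter fun e : {e // e ∈ C} => src e = v).card
          + (univ.filter fun e : {e // e ∈ C} => tgt e = v).card := by
      simp only [card_filter]
      rw [← sum_add_distrib, ← sum_add_distrib]
      refine sum_congr rfl fun e _ => ?_
      rcases hth e with ⟨h1, h2⟩ | ⟨h1, h2⟩
      · rw [h1, h2]
      · rw [h1, h2, add_comm]
    rw [hfil (fun e => src e = v), hfil (fun e => tgt e = v), hC, ht1] at h1
    omega
  have hhbij : Function.Bijective h := by
    rw [Function.bijective_iff_existsUnique]
    intro v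
    obtain ⟨e, he⟩ := card_eq_one.1 (hh1 v)
    refine ⟨e, ?_, fun e' he' => ?_⟩
    · have : e ∈ univ.filter fun e => h e = v := by rw [he]; simp
      simpa using this
    · have : e' ∈ univ.filter fun e => h e = v := by simpa using he'
      rw [he] at this; simpa using this
  let T := Equiv.ofBijective t htbij
  let H := Equiv.ofBijective h hhbij
  refine ⟨t, h, T.symm.trans H, htbij, hth, fun e => ?_⟩
  change H (T.symm (T e)) = h e
  rw [Equiv.symm_apply_apply]; rfl

/-- the involution given by the complementary perfect matching -/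
theorem exists_mu (src tgt : E → V) (M : Finset E)
    (hM : ∀ v, (M.filter fun e => src e = v).card + (M.filter fun e => tgt e = v).card = 1) :
    ∃ μ : Equiv.Perm V, (∀ v, μ (μ v) = v) ∧ (∀ v, μ v ≠ v) ∧ (∀ e ∈ M, μ (src e) = tgt e) ∧
      ∀ X : Finset V, (X.filter fun v => μ v ∉ X).card
        = (M.filter fun e => ¬(src e ∈ X ↔ tgt e ∈ X)).card := by
  classical
  have hex : ∀ v, ∃ e ∈ M, src e = v ∨ tgt e = v := by
    intro v
    by_contra hcon
    push Not at hcon
    have h1 : (M.filter fun e => src e = v) = ∅ := by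
      ext e; simp only [mem_filter, notMem_empty, iff_false, not_and]; exact fun h => (hcon e h).1
    have h2 : (M.filter fun e => tgt e = v) = ∅ := by
      ext e; simp only [mem_filter, notMem_empty, iff_false, not_and]; exact fun h => (hcon e h).2
    have := hM v
    rw [h1, h2] at this
    simp at this
  have hno : ∀ e ∈ M, src e ≠ tgt e := by
    intro e he h
    have h1 : 0 < (M.filter fun e' => src e' = src e).card := card_pos.2 ⟨e, by simp [he]⟩
    have h2 : 0 < (M.filter fun e' => tgt e' = src e).card := card_pos.2 ⟨e, by simp [he, h]⟩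
    have := hM (src e)
    omega
  have hun : ∀ v, ∀ e ∈ M, ∀ e' ∈ M, (src e = v ∨ tgt e = v) → (src e' = v ∨ tgt e' = v) → e = e' := by
    intro v e he e' he' h h'
    by_contra hne
    have hdis : ∀ f : E → V, ∀ x ∈ M, ∀ y ∈ M, x ≠ y → f x = v → f y = v →
        2 ≤ (M.filter fun e => f e = v).card := by
      intro f x hx y hy hxy h1 h2
      rw [← card_pair hxy]
      apply card_le_card
      intro z hz
      simp only [mem_insert, mem_singleton] at hz
      rcases hz with rfl | rfl
      · simp [hx, h1]
      · simp [hy, h2]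
    have h1 := hM v
    rcases h with h | h <;> rcases h' with h' | h'
    · have := hdis src e he e' he' hne h h'; omega
    · have a : 0 < (M.filter fun e => src e = v).card := card_pos.2 ⟨e, by simp [he, h]⟩
      have b : 0 < (M.filter fun e => tgt e = v).card := card_pos.2 ⟨e', by simp [he', h']⟩
      omega
    · have a : 0 < (M.filter fun e => src e = v).card := card_pos.2 ⟨e', by simp [he', h']⟩
      have b : 0 < (M.filter fun e => tgt e = v).card := card_pos.2 ⟨e, by simp [he, h]⟩
      omega
    · have := hdis tgt e he e' he' hne h h'; omega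
  choose ev hev1 hev2 using hex
  let m : V → V := fun v => if src (ev v) = v then tgt (ev v) else src (ev v)
  have hm : ∀ v, (src (ev v) = v ∧ tgt (ev v) = m v) ∨ (tgt (ev v) = v ∧ src (ev v) = m v) := by
    intro v
    by_cases h : src (ev v) = v
    · left; exact ⟨h, by simp [m, h]⟩
    · right; exact ⟨(hev2 v).resolve_left h, by simp [m, h]⟩
  have hevm : ∀ v, ev (m v) = ev v := by
    intro v
    apply hun (m v) _ (hev1 _) _ (hev1 _) (hev2 _)
    rcases hm v with h | h
    · right; exact h.2
    · left; exact h.2
  have hne : ∀ v, m v ≠ v := by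
    intro v
    rcases hm v with h | h
    · rw [← h.2]; intro h'; exact hno _ (hev1 v) (h.1.trans h'.symm)
    · rw [← h.2]; intro h'; exact hno _ (hev1 v) (h'.trans h.1.symm)
  have hinv : Function.Involutive m := by
    intro v
    have h1 := hm (m v)
    rw [hevm] at h1
    have h3 := hne v
    have h4 := hne (m v)
    rcases hm v with h | h <;> rcases h1 with h' | h'
    · exact absurd (h.1.symm.trans h'.1) (Ne.symm h3)
    · exact h'.2.symm.trans h.1
    · exact h'.2.symm.trans h.1
    · exact absurd (h.1.symm.trans h'.1) (Ne.symm h3)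
  have hsrc : ∀ e ∈ M, m (src e) = tgt e := by
    intro e he
    have h1 : ev (src e) = e := hun (src e) _ (hev1 _) _ he (hev2 _) (Or.inl rfl)
    have h2 := hm (src e)
    rw [h1] at h2
    rcases h2 with h | h
    · exact h.2.symm
    · exact absurd h.1.symm (hno e he)
  refine ⟨hinv.toPerm, hinv, hne, hsrc, fun X => ?_⟩
  change (X.filter fun v => m v ∉ X).card = _
  apply card_bij (fun v _ => ev v)
  · intro v hv
    rw [mem_filter] at hv ⊢
    refine ⟨hev1 v, ?_⟩
    rcases hm v with h | h
    · rw [h.1, h.2]; tauto
    · rw [h.1, h.2]; tauto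
  · intro v hv w hw h
    rw [mem_filter] at hv hw
    by_contra hvw
    have h1 := hm v
    have h2 := hm w
    rw [h] at h1
    have : m v = w := by
      rcases h1 with h1 | h1 <;> rcases h2 with h2 | h2
      · exact absurd (h1.1.symm.trans h2.1) hvw
      · exact h1.2.symm.trans h2.1
      · exact h1.2.symm.trans h2.1
      · exact absurd (h1.1.symm.trans h2.1) hvw
    rw [this] at hv
    exact hv.2 hw.1
  · intro e he
    rw [mem_filter] at he
    by_cases hs : src e ∈ X
    · have ht : tgt e ∉ X := by tauto
      refine ⟨src e, ?_, hun (src e) _ (hev1 _) _ he.1 (hev2 _) (Or.inl rfl)⟩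
      rw [mem_filter, hsrc e he.1]; exact ⟨hs, ht⟩
    · have ht : tgt e ∈ X := by tauto
      refine ⟨tgt e, ?_, hun (tgt e) _ (hev1 _) _ he.1 (hev2 _) (Or.inr rfl)⟩
      rw [mem_filter]
      refine ⟨ht, ?_⟩
      rw [← hsrc e he.1, hinv]; exact hs

/-- the edges of the 2-factor in a cut -/
theorem cut_two_factor (src tgt : E → V) (C : Finset E) (t h : {e // e ∈ C} → V)
    (π : Equiv.Perm V) (ht : Function.Bijective t)
    (hth : ∀ e, (t e = src e ∧ h e = tgt e) ∨ (t e = tgt e ∧ h e = src e))
    (hπ : ∀ e, π (t e) = h e) (X : Finset V) :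
    (C.filter fun e => ¬(src e ∈ X ↔ tgt e ∈ X)).card = 2 * (X.filter fun v => π v ∉ X).card := by
  classical
  have h1 : (C.filter fun e => ¬(src e ∈ X ↔ tgt e ∈ X)).card
      = (univ.filter fun v => ¬(v ∈ X ↔ π v ∈ X)).card := by
    symm
    let T := Equiv.ofBijective t ht
    have hT : ∀ v, t (T.symm v) = v := fun v => T.apply_symm_apply v
    apply card_bij (fun v _ => ((T.symm v : {e // e ∈ C}) : E))
    · intro v hv
      rw [mem_filter] at hv ⊢
      refine ⟨(T.symm v).2, ?_⟩
      have h2 := hπ (T.symm v)
      rw [hT] at h2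
      rw [h2] at hv
      rcases hth (T.symm v) with h3 | h3
      · rw [← h3.1, ← h3.2, hT]; exact hv.2
      · rw [← h3.1, ← h3.2, hT]
        intro h4; exact hv.2 h4.symm
    · intro v _ w _ h'
      exact T.symm.injective (Subtype.ext h')
    · intro e he
      rw [mem_filter] at he
      refine ⟨t ⟨e, he.1⟩, ?_, ?_⟩
      · rw [mem_filter, hπ]
        refine ⟨mem_univ _, ?_⟩
        rcases hth ⟨e, he.1⟩ with h3 | h3
        · rw [h3.1, h3.2]; exact he.2
        · rw [h3.1, h3.2]; intro h4; exact he.2 h4.symm
      · have : T.symm (t ⟨e, he.1⟩) = ⟨e, he.1⟩ := T.symm_apply_apply _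
        rw [this]
  have h2 : (univ.filter fun v => ¬(v ∈ X ↔ π v ∈ X)).card
      = (X.filter fun v => π v ∉ X).card + (univ.filter fun v => v ∉ X ∧ π v ∈ X).card := by
    rw [← card_union_of_disjoint]
    · congr 1; ext v; simp only [mem_filter, mem_union, mem_univ, true_and]; tauto
    · rw [disjoint_left]; intro v hv hv'
      simp only [mem_filter, mem_univ, true_and] at hv hv'
      exact hv'.1 hv.1
  have h3 : (univ.filter fun v => v ∉ X ∧ π v ∈ X).card = (X.filter fun v => π⁻¹ v ∉ X).card := by
    symm
    apply card_bij (fun v _ => π⁻¹ v)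
    · intro v hv
      simp only [mem_filter, mem_univ, true_and] at hv ⊢
      exact ⟨hv.2, by simpa using hv.1⟩
    · intro v _ w _ h; exact π⁻¹.injective h
    · intro w hw
      simp only [mem_filter, mem_univ, true_and] at hw
      exact ⟨π w, by simp [hw.1, hw.2], by simp⟩
  rw [h1, h2, h3, out_eq_in]; ring

/-- orbits are components of the 2-factor -/
theorem sameCycle_iff (src tgt : E → V) (C : Finset E) (t h : {e // e ∈ C} → V)
    (π : Equiv.Perm V) (ht : Function.Bijective t)
    (hth : ∀ e, (t e = src e ∧ h e = tgt e) ∨ (t e = tgt e ∧ h e = src e))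
    (hπ : ∀ e, π (t e) = h e) (u v : V) :
    π.SameCycle u v ↔ Relation.EqvGen (fun x y => ∃ e ∈ C, src e = x ∧ tgt e = y) u v := by
  constructor
  · intro huv
    obtain ⟨i, hi⟩ := huv.exists_nat_pow_eq
    rw [← hi]
    clear hi huv
    induction i with
    | zero => exact Relation.EqvGen.refl _
    | succ i ih =>
      refine Relation.EqvGen.trans _ _ _ ih ?_
      rw [pow_succ', Equiv.Perm.mul_apply]
      obtain ⟨e, he⟩ := ht.2 ((π ^ i) u)
      rw [← he, hπ]
      rcases hth e with h3 | h3
      · rw [h3.1, h3.2]; exact Relation.EqvGen.rel _ _ ⟨e, e.2, rfl, rfl⟩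
      · rw [h3.1, h3.2]; exact Relation.EqvGen.symm _ _ (Relation.EqvGen.rel _ _ ⟨e, e.2, rfl, rfl⟩)
  · intro huv
    induction huv with
    | rel x y hxy =>
      obtain ⟨e, he, rfl, rfl⟩ := hxy
      have h1 : π.SameCycle (t ⟨e, he⟩) (h ⟨e, he⟩) := by rw [← hπ]; exact ⟨1, by simp⟩
      rcases hth ⟨e, he⟩ with h3 | h3
      · rw [h3.1, h3.2] at h1; exact h1
      · rw [h3.1, h3.2] at h1; exact h1.symm
    | refl x => exact Equiv.Perm.SameCycle.refl _ _
    | symm x y _ ih => exact ih.symm
    | trans x y z _ _ ih1 ih2 => exact ih1.trans ih2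

end Pool.Agent.Lib.MP_53b341_co
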