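import Pool.Agent.Lib.MP_53b341_co.Flow

/-! # Flow-pairs from 2-factors with few odd cycles -/

set_option linter.unusedSectionVars false

namespace Pool.Agent.Lib.MP_53b341_co

open Finset

theorem two_flow {V E : Type*} [Fintype V] [DecidableEq V] [Fintype E] [DecidableEq E]
    (src tgt : E → V) (C : Finset E) (t h : {e // e ∈ C} → V)
    (ht : Function.Bijective t) (hh : Function.Bijective h)
    (hth : ∀ e, (t e = src e ∧ h e = tgt e) ∨ (t e = tgt e ∧ h e = src e)) :
    ∃ φ : E → ℤ, (∀ v, ∑ e with tgt e = v, φ e = ∑ e with src e = v, φ e) ∧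
      (∀ e, |φ e| ≤ 1) ∧ ∀ e, φ e = 0 ↔ e ∉ C := by
  classical
  let φ : E → ℤ := fun e => if he : e ∈ C then (if t ⟨e, he⟩ = src e then 1 else -1) else 0
  refine ⟨φ, fun v => ?_, fun e => ?_, fun e => ⟨fun he heC => ?_, fun he => by simp [φ, he]⟩⟩
  · have hA : ∀ (f : E → V) (ψ : E → ℤ), ∑ e with f e = v, ψ e
        = ∑ e, (if f e = v then (1 : ℤ) else 0) * ψ e := by
      intro f ψ
      rw [sum_filter]
      exact sum_congr rfl fun e _ => by split_ifs <;> simp
    rw [hA tgt, hA src, ← sub_eq_zero, ← sum_sub_distrib]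
    have h1 : ∑ e, ((if tgt e = v then (1 : ℤ) else 0) * φ e - (if src e = v then (1 : ℤ) else 0) * φ e)
        = ∑ e ∈ C, ((if tgt e = v then (1 : ℤ) else 0) * φ e
            - (if src e = v then (1 : ℤ) else 0) * φ e) := by
      symm
      apply sum_subset (subset_univ _)
      intro e _ he
      simp [φ, he]
    rw [h1, ← sum_coe_sort C]
    have h2 : ∀ e : {e // e ∈ C}, (if tgt e = v then (1 : ℤ) else 0) * φ e
        - (if src e = v then (1 : ℤ) else 0) * φ e
        = (if h e = v then (1 : ℤ) else 0) - (if t e = v then (1 : ℤ) else 0) := by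
      intro e
      have hφ : φ e = if t e = src e then 1 else -1 := by simp [φ]
      rw [hφ]
      by_cases hst : t e = src e
      · have : h e = tgt e := by
          rcases hth e with h3 | h3
          · exact h3.2
          · rw [h3.2, ← hst, h3.1]
        rw [this, hst]; simp
      · have h3 := (hth e).resolve_left (fun h => hst h.1)
        rw [if_neg hst, h3.1, h3.2]
        ring
    rw [sum_congr rfl fun e _ => h2 e, sum_sub_distrib]
    have h3 : ∀ f : {e // e ∈ C} → V, Function.Bijective f →
        ∑ e, (if f e = v then (1 : ℤ) else 0) = 1 := by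
      intro f hf
      obtain ⟨e, he⟩ := hf.2 v
      rw [sum_eq_single e]
      · simp [he]
      · intro e' _ hne
        have : f e' ≠ v := fun h => hne (hf.1 (h.trans he.symm))
        simp [this]
      · simp
    rw [h3 h hh, h3 t ht, sub_self]
  · simp only [φ]
    split_ifs <;> simp
  · simp only [φ, heC, dif_pos] at he
    split_ifs at he
    norm_num at he

/-- The general theorem: a 2-factor `C` of a cubic multigraph extends to a `p/q`-flow-pair as soon
as edge cuts separating many odd cycles of `C` from many others are large. -/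
theorem flow_pair {V E : Type*} [Fintype V] [Fintype E] (src tgt : E → V)
    (hcubic : IsCubic src tgt) (C : Finset E) (hC : IsTwoFactor src tgt C) (p q : ℕ)
    (hcut : ∀ (X : Set V) (y : ℕ), y ≡ cut src tgt Finset.univ X [MOD 2] →
      2 * y ≤ numOdd src tgt C Set.univ →
      2 * y ≤ 2 * numOdd src tgt C X + cut src tgt C X →
      2 * y ≤ 2 * numOdd src tgt C Xᶜ + cut src tgt C X →
      p * cut src tgt C X < q * y → (p + 2 * q) * y ≤ p * cut src tgt Finset.univ X) :
    ∃ φ₂ φ : E → ℤ, IsFlowPair src tgt p q φ₂ φ ∧ ∀ e, φ₂ e = 0 ↔ e ∉ C := by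
  classical
  have hC' : ∀ v, (C.filter fun e => src e = v).card + (C.filter fun e => tgt e = v).card = 2 := by
    intro v
    have := hC v
    convert this
  have hM : ∀ v, (Cᶜ.filter fun e => src e = v).card + (Cᶜ.filter fun e => tgt e = v).card = 1 := by
    intro v
    have h3 : (univ.filter fun e => src e = v).card + (univ.filter fun e => tgt e = v).card = 3 := by
      have := hcubic v
      convert this
    have hsplit : ∀ f : E → V, (univ.filter fun e => f e = v).card
        = (C.filter fun e => f e = v).card + (Cᶜ.filter fun e => f e = v).card := by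
      intro f
      rw [← card_union_of_disjoint]
      · congr 1; ext e; simp only [mem_filter, mem_union, mem_univ, true_and, mem_compl]; tauto
      · rw [disjoint_left]; intro e he he'
        simp only [mem_filter, mem_compl] at he he'
        exact he'.1 he.1
    have h2 := hC' v
    rw [hsplit src, hsplit tgt] at h3
    omega
  obtain ⟨t, h, π, ht, hth, hπ⟩ := exists_perm src tgt C hC'
  obtain ⟨μ, hμ, hμ', hμs, hμX⟩ := exists_mu src tgt Cᶜ hM
  have hcX := cut_two_factor src tgt C t h π ht hth hπ
  have hsc := sameCycle_iff src tgt C t h π ht hth hπ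
  have hcC : ∀ X : Finset V, cut src tgt C (X : Set V) = 2 * (X.filter fun v => π v ∉ X).card := by
    intro X
    rw [← hcX]
    unfold cut
    congr 1; ext e; simp
  have hcs : ∀ X : Finset V, cut src tgt univ (X : Set V)
      = (X.filter fun v => μ v ∉ X).card + 2 * (X.filter fun v => π v ∉ X).card := by
    intro X
    rw [hμX, ← hcX, add_comm, ← card_union_of_disjoint]
    · unfold cut
      congr 1; ext e
      simp only [mem_filter, mem_union, mem_univ, true_and, mem_compl, mem_coe]; tauto
    · rw [disjoint_left]; intro e he he'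
      simp only [mem_filter, mem_compl] at he he'
      exact he'.1 he.1
  have horb : ∀ w, {u | Relation.EqvGen (fun x y => ∃ e ∈ C, src e = x ∧ tgt e = y) w u}
      = (orb π w : Set V) := by
    intro w
    ext u
    rw [mem_coe, mem_orb, hsc]; rfl
  have hnodd : ∀ X : Finset V, nodd π X = numOdd src tgt C (X : Set V) := by
    intro X
    unfold nodd numOdd
    have : {D : Set V | IsOddCycle src tgt C D ∧ D ⊆ (X : Set V)}
        = (fun D : Finset V => (D : Set V)) ''
          {D : Finset V | Odd D.card ∧ (∃ w, D = orb π w) ∧ D ⊆ X} := by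
      ext D
      constructor
      · rintro ⟨⟨h1, w, h2⟩, h3⟩
        rw [horb] at h2
        subst h2
        refine ⟨orb π w, ⟨?_, ⟨w, rfl⟩, ?_⟩, rfl⟩
        · rw [Set.ncard_coe_finset] at h1; exact h1
        · exact_mod_cast h3
      · rintro ⟨D', ⟨h1, ⟨w, h2⟩, h3⟩, rfl⟩
        refine ⟨⟨?_, w, ?_⟩, ?_⟩
        · simp only [Set.ncard_coe_finset]; exact h1
        · rw [horb, h2]
        · exact_mod_cast h3
    rw [this, Set.ncard_image_of_injective _ Finset.coe_injective]
  have hh : Function.Bijective h := by
    have : h = fun e => π (t e) := funext fun e => (hπ e).symm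
    rw [this]
    exact π.bijective.comp ht
  obtain ⟨φ₂, hφ1, hφ2, hφ3⟩ := two_flow src tgt C t h ht hh hth
  obtain ⟨s, hs, hsμ, hsX⟩ := exists_sigma π μ hμ hμ' p q (by
      intro X y hy1 hy2 hy3 hy4 hy5
      rw [← hcs] at hy1 ⊢
      rw [← hcC] at hy3 hy4 hy5
      rw [hnodd] at hy2 hy3 hy4
      rw [coe_univ] at hy2
      rw [coe_compl] at hy4
      exact hcut (X : Set V) y hy1 hy2 hy3 hy4 hy5)
  have hs0 : ∑ v, s v = 0 := by
    apply Finset.sum_involution (fun v _ => μ v)
    · intro v _; rw [hsμ]; ring
    · intro v _ _ ; exact hμ' v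
    · intro v _; exact mem_univ _
    · intro v _; exact hμ v
  obtain ⟨φ, hf1, hf2, hf3⟩ := flow_of_sigma src tgt C hC' hM s hs hs0
    (fun e he => by rw [← hμs e (mem_compl.2 he), hsμ]) p q (by
      intro X
      have := hsX X
      rw [← hμX, hcX]
      push_cast at this ⊢
      linarith)
  refine ⟨φ₂, φ, ⟨?_, ?_, hφ2, hf2, fun e he => hf3 e ((hφ3 e).1 he)⟩, hφ3⟩
  · intro v
    have := hφ1 v
    convert this
  · intro v
    have := hf1 v
    convert this

end Pool.Agent.Lib.MP_53b341_co
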