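import Pool.Agent.Lib.MP_53b341_co.Orient

/-! # Near perfect matchings along the cycles of a permutation -/

namespace Pool.Agent.Lib.MP_53b341_co

open Finset

theorem near_match {V : Type*} [Fintype V] [DecidableEq V] (π : Equiv.Perm V) :
    ∃ (W : Finset V) (g : V → V),
      (∀ v, v ∉ W → g v ∉ W ∧ g v ≠ v ∧ g (g v) = v ∧ (g v = π v ∨ g v = π⁻¹ v)) ∧
      ∀ w ∈ W, ∀ w' ∈ W, π.SameCycle w w' → w = w' := by
  classical
  have ai : ∀ v, π (π⁻¹ v) = v := fun v => π.apply_symm_apply v
  have ia : ∀ v, π⁻¹ (π v) = v := fun v => π.symm_apply_apply v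
  let q : V → Quotient (Equiv.Perm.SameCycle.setoid π) := fun v => Quotient.mk _ v
  let r : V → V := fun v => (q v).out
  have hr : ∀ v, π.SameCycle (r v) v := fun v => Quotient.exact (Quotient.out_eq (q v))
  have hrs : ∀ u v, π.SameCycle u v → r u = r v := by
    intro u v h
    have : q u = q v := Quotient.sound h
    simp only [r, this]
  have hper : ∀ v, 0 < Function.minimalPeriod π v := fun v => by
    apply Function.minimalPeriod_pos_of_mem_periodicPts
    exact Function.mem_periodicPts.2 ⟨orderOf π, orderOf_pos π, by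
      rw [Function.IsPeriodicPt, Function.IsFixedPt, ← Equiv.Perm.coe_pow, pow_orderOf_eq_one]; rfl⟩
  have hex : ∀ v, ∃ n, n < Function.minimalPeriod π (r v) ∧ π^[n] (r v) = v := by
    intro v
    obtain ⟨n, _, hn⟩ := (hr v).exists_pow_eq'
    refine ⟨n % Function.minimalPeriod π (r v), Nat.mod_lt _ (hper _), ?_⟩
    rw [Function.iterate_mod_minimalPeriod_eq, ← Equiv.Perm.coe_pow]
    exact hn
  choose i hi1 hi2 using hex
  let L : V → ℕ := fun v => Function.minimalPeriod π (r v)
  have hLs : ∀ u v, π.SameCycle u v → L u = L v := fun u v h => by simp only [L, hrs u v h]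
  have huniq : ∀ v n, n < L v → π^[n] (r v) = v → n = i v := by
    intro v n hn h
    exact Function.iterate_injOn_Iio_minimalPeriod hn (hi1 v) (h.trans (hi2 v).symm)
  have hsπ : ∀ v, π.SameCycle (π v) v := fun v => ⟨-1, by simp⟩
  have hiπ : ∀ v, i (π v) = if i v + 1 = L v then 0 else i v + 1 := by
    intro v
    symm
    apply huniq
    · rw [hLs _ _ (hsπ v)]
      split_ifs with h
      · exact hper _
      · have := hi1 v
        change i v < L v at this
        omega
    · rw [hrs _ _ (hsπ v)]
      split_ifs with h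
      · have h1 : π^[i v + 1] (r v) = π v := by
          rw [Function.iterate_succ_apply', hi2]
        rw [h] at h1
        have h2 : π^[L v] (r v) = r v := Function.iterate_minimalPeriod
        rw [← h1, h2]; rfl
      · rw [Function.iterate_succ_apply', hi2]
  have hi1' : ∀ v, i v < L v := hi1
  have hsπ' : ∀ v, π.SameCycle (π⁻¹ v) v := fun v => ⟨1, by simp⟩
  have hiπ' : ∀ v, i (π⁻¹ v) = if i v = 0 then L v - 1 else i v - 1 := by
    intro v
    have h := hiπ (π⁻¹ v)
    rw [ai] at h
    have h1 := hi1' (π⁻¹ v)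
    have h2 := hLs _ _ (hsπ' v)
    rw [h2] at h h1
    split_ifs at h with h3
    · rw [if_pos h]; omega
    · rw [if_neg (by omega)]; omega
  let W : Finset V := univ.filter fun v => i v = 0 ∧ Odd (L v)
  let g : V → V := fun v => if Odd (i v) then π v else π⁻¹ v
  have hW : ∀ v, v ∈ W ↔ i v = 0 ∧ Odd (L v) := fun v => by simp [W]
  have hfix : ∀ v, v ∉ W → 2 ≤ L v := by
    intro v hv
    rw [hW] at hv
    have h1 := hi1' v
    by_contra h2
    have h3 : L v = 1 := by omega
    apply hv
    rw [h3]
    exact ⟨by omega, odd_one⟩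
  refine ⟨W, g, fun v hv => ?_, ?_⟩
  · have hv2 := hfix v hv
    rw [hW] at hv
    have h1 := hi1' v
    by_cases ho : Odd (i v)
    · have hg : g v = π v := by simp only [g, ho, if_true]
      have hi := hiπ v
      have hL := hLs _ _ (hsπ v)
      have hev : ¬ Odd (i (π v)) := by
        rw [hi]
        split_ifs
        · simp
        · rw [Nat.not_odd_iff_even]; exact ho.add_one
      refine ⟨?_, ?_, ?_, Or.inl hg⟩
      · rw [hg, hW, hi, hL]
        rintro ⟨h3, h4⟩
        split_ifs at h3 with h5
        rw [← h5] at h4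
        exact (Nat.not_even_iff_odd.2 h4) ho.add_one
      · rw [hg]
        intro h
        rw [h] at hev
        exact hev ho
      · rw [hg]
        simp only [g, hev, if_false, ia]
    · have hg : g v = π⁻¹ v := by simp only [g, ho, if_false]
      have hi := hiπ' v
      have hL := hLs _ _ (hsπ' v)
      have hev : Odd (i (π⁻¹ v)) := by
        rw [hi]
        rw [Nat.not_odd_iff_even] at ho
        split_ifs with h3
        · have h4 : ¬ Odd (L v) := fun h => hv ⟨h3, h⟩
          rw [Nat.not_odd_iff_even] at h4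
          obtain ⟨a, ha⟩ := h4
          exact ⟨a - 1, by omega⟩
        · obtain ⟨a, ha⟩ := ho
          exact ⟨a - 1, by omega⟩
      refine ⟨?_, ?_, ?_, Or.inr hg⟩
      · rw [hg, hW]
        rintro ⟨h3, _⟩
        rw [h3] at hev
        simp at hev
      · rw [hg]
        intro h
        rw [h] at hev
        exact ho hev
      · rw [hg]
        simp only [g, hev, if_true, ai]
  · intro w hw w' hw' hs
    rw [hW] at hw hw'
    have h1 := hi2 w
    have h2 := hi2 w'
    rw [hw.1] at h1
    rw [hw'.1] at h2
    rw [← h1, ← h2]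
    exact hrs _ _ hs

end Pool.Agent.Lib.MP_53b341_co
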