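import Mathlib

/-! # Orientations with prescribed outdegrees, and two-colourings along two involutions -/

namespace Pool.Agent.Lib.MP_53b341_co

open Finset

/-- Hakimi's theorem: an orientation of a finite multigraph with prescribed outdegrees. The edge
`e` has the ends `a e`, `b e`; the tail `t e` is one of them. -/
theorem orient {V E : Type*} [Fintype V] [DecidableEq V] [Fintype E] [DecidableEq E]
    (a b : E → V) (o : V → ℕ) (htot : ∑ v, o v = Fintype.card E)
    (h : ∀ X : Finset V, (univ.filter fun e => a e ∈ X ∧ b e ∈ X).card ≤ ∑ v ∈ X, o v) :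
    ∃ t : E → V, (∀ e, t e = a e ∨ t e = b e) ∧
      ∀ v, (univ.filter fun e => t e = v).card = o v := by
  classical
  let S : E → Finset (Σ v : V, Fin (o v)) := fun e => univ.filter fun s => s.1 = a e ∨ s.1 = b e
  have hcard : ∀ X : Finset V, (univ.filter fun s : (Σ v : V, Fin (o v)) => s.1 ∈ X).card
      = ∑ v ∈ X, o v := by
    intro X
    have : (univ.filter fun s : (Σ v : V, Fin (o v)) => s.1 ∈ X) = X.sigma fun v => univ := by
      ext s; simp
    rw [this, card_sigma]; simp
  have hall : ∀ F : Finset E, F.card ≤ (F.biUnion S).card := by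
    intro F
    let X : Finset V := F.image a ∪ F.image b
    have h1 : F.biUnion S = univ.filter fun s : (Σ v : V, Fin (o v)) => s.1 ∈ X := by
      ext s
      simp only [mem_biUnion, S, mem_filter, mem_univ, true_and, X, mem_union, mem_image]
      constructor
      · rintro ⟨e, he, h | h⟩
        · exact Or.inl ⟨e, he, h.symm⟩
        · exact Or.inr ⟨e, he, h.symm⟩
      · rintro (⟨e, he, h⟩ | ⟨e, he, h⟩)
        · exact ⟨e, he, Or.inl h.symm⟩
        · exact ⟨e, he, Or.inr h.symm⟩
    rw [h1, hcard]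
    refine le_trans (card_le_card ?_) (h X)
    intro e he
    simp only [mem_filter, mem_univ, true_and, X, mem_union, mem_image]
    exact ⟨Or.inl ⟨e, he, rfl⟩, Or.inr ⟨e, he, rfl⟩⟩
  obtain ⟨f, hf, hfS⟩ := (Finset.all_card_le_biUnion_card_iff_exists_injective S).1 hall
  have hbij : Function.Bijective f := by
    rw [Fintype.bijective_iff_injective_and_card]
    refine ⟨hf, ?_⟩
    rw [Fintype.card_sigma]; simp [htot]
  refine ⟨fun e => (f e).1, fun e => ?_, fun v => ?_⟩
  · have := hfS e
    simpa [S] using this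
  · have h1 : (univ.filter fun e => (f e).1 = v).card
        = (univ.filter fun s : (Σ v : V, Fin (o v)) => s.1 ∈ ({v} : Finset V)).card := by
      apply card_bij (fun e _ => f e)
      · intro e he; simpa using he
      · intro e _ e' _ h; exact hf h
      · intro s hs
        obtain ⟨e, rfl⟩ := hbij.2 s
        exact ⟨e, by simpa using hs, rfl⟩
    rw [h1, hcard]; simp

/-- fixed point free involutions live on sets of even size -/
theorem even_card_of_involution {V : Type*} (s : Finset V) (g : V → V)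
    (h1 : ∀ v ∈ s, g v ∈ s) (h2 : ∀ v ∈ s, g v ≠ v) (h3 : ∀ v ∈ s, g (g v) = v) : Even s.card := by
  have h : ∏ _x ∈ s, (-1 : ℤ) = 1 :=
    Finset.prod_involution (fun v _ => g v) (fun _ _ => by norm_num) (fun v hv _ => h2 v hv)
      (fun v hv => h1 v hv) (fun v hv => h3 v hv)
  rw [prod_const] at h
  rcases Nat.even_or_odd s.card with he | ho
  · exact he
  · rw [ho.neg_one_pow] at h; norm_num at h

/-- a finite set of even size carries a fixed point free involution -/
theorem exists_pairing {V : Type*} [DecidableEq V] (n : ℕ) : ∀ W : Finset V, W.card = 2 * n →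
    ∃ g : V → V, ∀ w ∈ W, g w ∈ W ∧ g w ≠ w ∧ g (g w) = w := by
  induction n with
  | zero =>
    intro W hW
    have : W = ∅ := card_eq_zero.1 (by simpa using hW)
    subst this
    exact ⟨id, fun w hw => by simp at hw⟩
  | succ n ih =>
    intro W hW
    have hpos : 0 < W.card := by omega
    obtain ⟨a, ha⟩ := card_pos.1 hpos
    have hpos2 : 0 < (W.erase a).card := by rw [card_erase_of_mem ha]; omega
    obtain ⟨b, hb⟩ := card_pos.1 hpos2
    have hba : b ≠ a := ne_of_mem_erase hb
    have hbW : b ∈ W := mem_of_mem_erase hb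
    obtain ⟨g, hg⟩ := ih ((W.erase a).erase b) (by
      rw [card_erase_of_mem hb, card_erase_of_mem ha]; omega)
    refine ⟨fun v => if v = a then b else if v = b then a else g v, fun w hw => ?_⟩
    by_cases h1 : w = a
    · subst h1
      simp [hba, hbW]
    · by_cases h2 : w = b
      · subst h2
        simp [hba, ha, hba.symm]
      · have hw' : w ∈ (W.erase a).erase b := mem_erase.2 ⟨h2, mem_erase.2 ⟨h1, hw⟩⟩
        obtain ⟨g1, g2, g3⟩ := hg w hw'
        have g1a : g w ≠ a := (mem_erase.1 (mem_erase.1 g1).2).1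
        have g1b : g w ≠ b := (mem_erase.1 g1).1
        simp only [h1, h2, if_false, g1a, g1b]
        exact ⟨(mem_erase.1 (mem_erase.1 g1).2).2, g2, g3⟩

/-- two fixed point free involutions of a finite set admit a common proper two-colouring -/
theorem two_colour {V : Type*} [Fintype V] [DecidableEq V] (μ ν : Equiv.Perm V)
    (hμ : ∀ v, μ (μ v) = v) (hν : ∀ v, ν (ν v) = v) (hμ' : ∀ v, μ v ≠ v) (hν' : ∀ v, ν v ≠ v) :
    ∃ s : V → ℤ, (∀ v, s v = 1 ∨ s v = -1) ∧ (∀ v, s (μ v) = - s v) ∧ ∀ v, s (ν v) = - s v := by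
  classical
  set ρ : Equiv.Perm V := ν * μ with hρ
  have hμμ : μ * μ = 1 := by ext v; simp [hμ]
  have hνν : ν * ν = 1 := by ext v; simp [hν]
  have hμi : μ⁻¹ = μ := inv_eq_of_mul_eq_one_left hμμ
  have hνi : ν⁻¹ = ν := inv_eq_of_mul_eq_one_left hνν
  have hconj : μ * ρ * μ⁻¹ = ρ⁻¹ := by
    rw [hρ, mul_inv_rev, hμi, hνi, mul_assoc, mul_assoc, hμμ, mul_one]
  have hz : ∀ (n : ℤ) (v : V), μ ((ρ ^ n) v) = (ρ ^ (-n)) (μ v) := by
    intro n v
    have h1 : μ * ρ ^ n * μ⁻¹ = ρ ^ (-n) := by
      rw [← conj_zpow, hconj, inv_zpow, zpow_neg]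
    have h2 : μ * ρ ^ n = ρ ^ (-n) * μ := by rw [← h1, hμi, mul_assoc, hμμ, mul_one]
    exact congrArg (fun f : Equiv.Perm V => f v) h2
  have hno : ∀ v, ¬ ρ.SameCycle v (μ v) := by
    rintro v ⟨n, hn⟩
    rcases Int.even_or_odd' n with ⟨i, hi | hi⟩
    · apply hμ' ((ρ ^ i) v)
      rw [hz, ← hn, ← Equiv.Perm.mul_apply, ← zpow_add, hi]
      congr 2; ring
    · apply hν' ((ρ ^ (i + 1)) v)
      have h1 : μ ((ρ ^ (i + 1)) v) = (ρ ^ i) v := by
        rw [hz, ← hn, ← Equiv.Perm.mul_apply, ← zpow_add, hi]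
        congr 2; ring
      have h2 : ν ((ρ ^ (i + 1)) v) = ρ (μ ((ρ ^ (i + 1)) v)) := by
        rw [hρ, Equiv.Perm.mul_apply, hμ]
      rw [h2, h1, ← Equiv.Perm.mul_apply, ← zpow_one_add, add_comm]
  -- the orbits, linearly ordered through an enumeration
  let en := Fintype.equivFin V
  let m : V → ℕ := fun v => (univ.filter fun u => ρ.SameCycle v u).inf'
    ⟨v, mem_filter.2 ⟨mem_univ _, Equiv.Perm.SameCycle.refl _ _⟩⟩ (fun u => (en u : ℕ))
  have hm : ∀ v, ∃ u, ρ.SameCycle v u ∧ m v = (en u : ℕ) := by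
    intro v
    obtain ⟨u, hu, hu'⟩ := exists_mem_eq_inf' (s := univ.filter fun u => ρ.SameCycle v u)
      ⟨v, mem_filter.2 ⟨mem_univ _, Equiv.Perm.SameCycle.refl _ _⟩⟩ (fun u => (en u : ℕ))
    exact ⟨u, by simpa using hu, hu'⟩
  have hsame : ∀ u v, ρ.SameCycle u v → m u = m v := by
    intro u v huv
    have : (univ.filter fun w => ρ.SameCycle u w) = univ.filter fun w => ρ.SameCycle v w := by
      ext w
      simp only [mem_filter, mem_univ, true_and]
      exact ⟨fun h => huv.symm.trans h, fun h => huv.trans h⟩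
    simp only [m, this]
  have hne : ∀ v, m v ≠ m (μ v) := by
    intro v h
    obtain ⟨u, hu, hu'⟩ := hm v
    obtain ⟨w, hw, hw'⟩ := hm (μ v)
    have : u = w := by
      apply en.injective
      apply Fin.ext
      rw [← hu', ← hw', h]
    subst this
    exact hno v (hu.trans hw.symm)
  refine ⟨fun v => if m v < m (μ v) then 1 else -1, fun v => ?_, fun v => ?_, fun v => ?_⟩
  · by_cases h : m v < m (μ v) <;> simp [h]
  · have := hne v
    simp only [hμ]
    rcases lt_or_gt_of_ne this with h | h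
    · simp [h, h.not_gt]
    · simp [h, h.not_gt]
  · have h1 : m (ν v) = m (μ v) := by
      apply hsame
      refine ⟨-1, ?_⟩
      rw [zpow_neg_one, hρ, mul_inv_rev, hμi, hνi, Equiv.Perm.mul_apply, hν]
    have h2 : m (μ (ν v)) = m v := by
      apply hsame
      refine ⟨1, ?_⟩
      rw [zpow_one, hρ, Equiv.Perm.mul_apply, hμ, hν]
    have := hne v
    simp only [h1, h2]
    rcases lt_or_gt_of_ne this with h | h
    · simp [h, h.not_gt]
    · simp [h, h.not_gt]

end Pool.Agent.Lib.MP_53b341_co
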